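import Pool.Agent.MWK.Stmts

/-!
# Row TWC of squad MWK (MP_23468a_al): letters in front of a wall have occurred twice
-/

set_option autoImplicit false

namespace Pool.Agent.MWK.H2

open Pool.Agent.Helper14_MV Pool.Agent.Helper2_MV

/-- **TWC** -/
theorem twc : TwcStmt := by
  intro w A q R k hw hR z hz hd
  have h1 : 0 < (A ++ q).count z := List.count_pos_iff.2 hz
  have h2 : (A ++ q).count z ≠ 1 := by
    intro h
    rcases hR with hR | ⟨t, R', hR, ht, hD⟩
    · apply hd
      apply Dp.simple
      rw [hw, hR, List.append_nil]
      exact h
    · apply hd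
      apply Dp.step hD
      rw [hw, hR, pre_split ht]
      exact h
  omega

end Pool.Agent.MWK.H2
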